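import Mathlib

set_option autoImplicit false

namespace Pool.Agent.Results.MP_b8a264_an.Counter

open Matrix Finset MeasureTheory

section defs
variable {k d : ℕ} {ds : Fin k → ℕ} (B : ∀ i, Matrix (Fin (ds i)) (Fin d) ℝ) (c : Fin k → ℝ)

/-- `det (∑ c_i B_iᵀ A_i B_i)`. -/
noncomputable def den (A : ∀ i, Matrix (Fin (ds i)) (Fin (ds i)) ℝ) : ℝ :=
  (∑ i, c i • ((B i)ᵀ * A i * B i)).det

/-- The gaussian quotient. -/
noncomputable def quot (A : ∀ i, Matrix (Fin (ds i)) (Fin (ds i)) ℝ) : ℝ :=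
  Real.sqrt ((∏ i, (A i).det ^ c i) / den B c A)

/-- Brascamp-Lieb datum. -/
def IsDatum : Prop := (∀ i, Function.Surjective (B i).mulVec) ∧ ∀ i, 0 < c i

/-- The gaussian supremum is finite. -/
def Feasible : Prop :=
  ∃ C : ℝ, ∀ A, (∀ i, (A i).PosDef) → den B c A ≠ 0 ∧ quot B c A ≤ C

/-- The Brascamp-Lieb constant is finite. -/
def FeasibleInt : Prop :=
  ∃ C : ENNReal, C ≠ ⊤ ∧ ∀ f : ∀ i, (Fin (ds i) → ℝ) → ENNReal, (∀ i, Measurable (f i)) →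
    ∫⁻ x, ∏ i, f i (B i *ᵥ x) ^ c i ≤ C * ∏ i, (∫⁻ y, f i y) ^ c i

/-- The gaussian supremum is finite and attained. -/
def Extremizable : Prop :=
  ∃ A₀, (∀ i, (A₀ i).PosDef) ∧
    ∀ A, (∀ i, (A i).PosDef) → den B c A ≠ 0 ∧ quot B c A ≤ quot B c A₀

end defs

def ds : Fin 3 → ℕ
  | 0 => 2
  | 1 => 1
  | 2 => 1

def B0 : ∀ i, Matrix (Fin (ds i)) (Fin 3) ℝ
  | 0 => (!![1, 0, 0; 0, 1, 0] : Matrix (Fin 2) (Fin 3) ℝ)
  | 1 => (!![0, 0, 1] : Matrix (Fin 1) (Fin 3) ℝ)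
  | 2 => (!![1, 0, 1] : Matrix (Fin 1) (Fin 3) ℝ)

noncomputable def c0 : Fin 3 → ℝ := ![1, 1 / 2, 1 / 2]

def tr (x y z : Fin 3 → ℝ) : ℝ :=
  x 0 * (y 1 * z 2 - y 2 * z 1) + x 1 * (y 2 * z 0 - y 0 * z 2) + x 2 * (y 0 * z 1 - y 1 * z 0)

lemma dform (P : Matrix (Fin 2) (Fin 3) ℝ) (b e : Matrix (Fin 1) (Fin 3) ℝ)
    (A : Matrix (Fin 2) (Fin 2) ℝ) (x y : Matrix (Fin 1) (Fin 1) ℝ) (c₁ c₂ c₃ : ℝ)
    (h : A 1 0 = A 0 1) :
    (c₁ • (Pᵀ * A * P) + c₂ • (bᵀ * x * b) + c₃ • (eᵀ * y * e)).det =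
      c₁ ^ 2 * A.det * (c₂ * x.det * tr (b 0) (P 0) (P 1) ^ 2 +
        c₃ * y.det * tr (e 0) (P 0) (P 1) ^ 2) + c₂ * x.det * (c₃ * y.det) * c₁ *
        (![tr (P 0) (b 0) (e 0), tr (P 1) (b 0) (e 0)] ⬝ᵥ
          (A *ᵥ ![tr (P 0) (b 0) (e 0), tr (P 1) (b 0) (e 0)])) := by
  simp only [det_fin_three, det_fin_two, det_fin_one, Matrix.add_apply, Matrix.smul_apply,
    Matrix.mul_apply, transpose_apply, Fin.sum_univ_two, Fin.sum_univ_one, smul_eq_mul, tr, h,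
    dotProduct, mulVec, Matrix.cons_val_zero, Matrix.cons_val_one]
  ring

lemma sym {A : Matrix (Fin 2) (Fin 2) ℝ} (h : A.PosDef) : A 1 0 = A 0 1 := by
  simpa using (h.1.apply 0 1)

lemma better (A : Matrix (Fin 2) (Fin 2) ℝ) (h : A.PosDef) (u : Fin 2 → ℝ) (hu : u ≠ 0) :
    ∃ A' : Matrix (Fin 2) (Fin 2) ℝ, A'.PosDef ∧ A'.det = A.det ∧
      u ⬝ᵥ (A' *ᵥ u) = u ⬝ᵥ (A *ᵥ u) / 2 ∧ 0 < u ⬝ᵥ (A *ᵥ u) := by
  have q : 0 < u ⬝ᵥ (A *ᵥ u) := by simpa using h.dotProduct_mulVec_pos hu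
  have D := h.det_pos
  have s := sym h
  set l := 3 * A.det / (u ⬝ᵥ (A *ᵥ u)) with hl
  have l0 : 0 ≤ l := by positivity
  have lq : l * (u ⬝ᵥ (A *ᵥ u)) = 3 * A.det := by rw [hl]; field_simp
  refine ⟨(1 / 2 : ℝ) • (A + l • vecMulVec ![-u 1, u 0] (star ![-u 1, u 0])),
    (h.add_posSemidef ((posSemidef_vecMulVec_self_star _).smul l0)).smul (by norm_num), ?_, ?_, q⟩
  · simp only [det_fin_two, dotProduct, mulVec, Fin.sum_univ_two, s] at lq ⊢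
    simp [s]
    linear_combination (1 / 4 : ℝ) * lq
  · simp only [dotProduct, mulVec, Fin.sum_univ_two, s]
    simp [s]
    ring

lemma near (s b e : Fin 3 → ℝ) (s0 : |s 0| < 1 / 100) (s1 : |s 1 - 1| < 1 / 100)
    (s2 : |s 2| < 1 / 100) (b0 : |b 0| < 1 / 100) (b1 : |b 1| < 1 / 100) (b2 : |b 2 - 1| < 1 / 100)
    (e0 : |e 0 - 1| < 1 / 100) (e1 : |e 1| < 1 / 100) (e2 : |e 2 - 1| < 1 / 100) :
    0 < tr s b e := by
  rw [abs_lt] at *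
  have x1 : -1 < b 1 * e 2 - b 2 * e 1 ∧ b 1 * e 2 - b 2 * e 1 < 1 := by
    constructor <;> nlinarith
  have x2 : 1 / 2 < b 2 * e 0 - b 0 * e 2 := by nlinarith
  have x3 : -1 < b 0 * e 1 - b 1 * e 0 ∧ b 0 * e 1 - b 1 * e 0 < 1 := by
    constructor <;> nlinarith
  unfold tr
  nlinarith [x1.1, x1.2, x3.1, x3.2]

lemma den_eq (B : ∀ i, Matrix (Fin (ds i)) (Fin 3) ℝ) (c : Fin 3 → ℝ)
    (A : ∀ i, Matrix (Fin (ds i)) (Fin (ds i)) ℝ) : den B c A =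
    (c 0 • ((B 0)ᵀ * A 0 * B 0) + c 1 • ((B 1)ᵀ * A 1 * B 1) + c 2 • ((B 2)ᵀ * A 2 * B 2)).det := by
  rw [den, Fin.sum_univ_three]

lemma base (A : Matrix (Fin 2) (Fin 2) ℝ) (x y : Matrix (Fin 1) (Fin 1) ℝ) (hA : A.PosDef)
    (hx : x.PosDef) (hy : y.PosDef) : ∃ z : ℝ,
    ((1 : ℝ) • ((!![1, 0, 0; 0, 1, 0] : Matrix (Fin 2) (Fin 3) ℝ)ᵀ * A *
      (!![1, 0, 0; 0, 1, 0] : Matrix (Fin 2) (Fin 3) ℝ)) +
      (1 / 2 : ℝ) • ((!![0, 0, 1] : Matrix (Fin 1) (Fin 3) ℝ)ᵀ * x *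
      (!![0, 0, 1] : Matrix (Fin 1) (Fin 3) ℝ)) +
      (1 / 2 : ℝ) • ((!![1, 0, 1] : Matrix (Fin 1) (Fin 3) ℝ)ᵀ * y *
      (!![1, 0, 1] : Matrix (Fin 1) (Fin 3) ℝ))).det = z ∧ 0 < z ∧
      A.det ^ (1 : ℝ) * x.det ^ (1 / 2 : ℝ) * y.det ^ (1 / 2 : ℝ) ≤ z := by
  obtain ⟨-, -, -, -, q⟩ := better A hA ![0, 1] (by simp)
  have d0 := hA.det_pos
  have d1 := hx.det_pos
  have d2 := hy.det_pos
  refine ⟨A.det * (x.det / 2 + y.det / 2) + x.det / 2 * (y.det / 2) *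
    ((![0, 1] : Fin 2 → ℝ) ⬝ᵥ (A *ᵥ ![0, 1])), ?_, by positivity, ?_⟩
  · rw [dform _ _ _ _ _ _ _ _ _ (sym hA)]
    simp [tr]
    ring
  · rw [Real.rpow_one, mul_assoc]
    have am := Real.geom_mean_le_arith_mean2_weighted (w₁ := 1 / 2) (w₂ := 1 / 2)
      (by norm_num) (by norm_num) d1.le d2.le (by norm_num)
    have := mul_le_mul_of_nonneg_left am d0.le
    have r : 0 ≤ x.det / 2 * (y.det / 2) * ((![0, 1] : Fin 2 → ℝ) ⬝ᵥ (A *ᵥ ![0, 1])) := by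
      positivity
    linarith

lemma uni (g : (Fin 1 → ℝ) → ENNReal) (hg : Measurable g) :
    ∫⁻ t : ℝ, g (fun _ => t) = ∫⁻ y, g y := by
  refine Eq.trans (lintegral_congr fun t => congrArg g ?_)
    (((volume_preserving_funUnique (Fin 1) ℝ).symm
      (MeasurableEquiv.funUnique (Fin 1) ℝ)).lintegral_comp hg)
  funext j
  fin_cases j
  rfl

lemma bl (f : (Fin 2 → ℝ) → ENNReal) (g h : (Fin 1 → ℝ) → ENNReal) (hf : Measurable f)
    (hg : Measurable g) (hh : Measurable h) :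
    ∫⁻ x : Fin 3 → ℝ, f ((!![1, 0, 0; 0, 1, 0] : Matrix (Fin 2) (Fin 3) ℝ) *ᵥ x) ^ (1 : ℝ) *
      g ((!![0, 0, 1] : Matrix (Fin 1) (Fin 3) ℝ) *ᵥ x) ^ (1 / 2 : ℝ) *
      h ((!![1, 0, 1] : Matrix (Fin 1) (Fin 3) ℝ) *ᵥ x) ^ (1 / 2 : ℝ) ≤
      (∫⁻ y, f y) ^ (1 : ℝ) * (∫⁻ y, g y) ^ (1 / 2 : ℝ) * (∫⁻ y, h y) ^ (1 / 2 : ℝ) := by
  let F : ℝ × (Fin 2 → ℝ) → ENNReal := fun p =>
    f p.2 * (g (fun _ => p.1) ^ (1 / 2 : ℝ) * h (fun _ => p.2 0 + p.1) ^ (1 / 2 : ℝ))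
  have hF : Measurable F := by
    unfold F
    fun_prop
  have e := (volume_preserving_piFinSuccAbove (fun _ : Fin 3 => ℝ) 2).lintegral_comp hF
  refine le_trans (le_of_eq (Eq.trans (lintegral_congr fun x => ?_) e)) ?_
  · rw [ENNReal.rpow_one, mul_assoc]
    have a : (!![1, 0, 0; 0, 1, 0] : Matrix (Fin 2) (Fin 3) ℝ) *ᵥ x =
        fun j => x ((2 : Fin 3).succAbove j) := by
      funext j
      fin_cases j <;> simp [mulVec, dotProduct, Fin.sum_univ_three] <;> rfl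
    have b : (!![0, 0, 1] : Matrix (Fin 1) (Fin 3) ℝ) *ᵥ x = fun _ => x 2 := by
      funext j
      fin_cases j
      simp [mulVec, dotProduct, Fin.sum_univ_three]
    have c : (!![1, 0, 1] : Matrix (Fin 1) (Fin 3) ℝ) *ᵥ x = fun _ => x 0 + x 2 := by
      funext j
      fin_cases j
      simp [mulVec, dotProduct, Fin.sum_univ_three]
    rw [a, b, c]
    rfl
  · rw [Measure.volume_eq_prod, lintegral_prod_symm' _ hF, ENNReal.rpow_one, mul_assoc,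
      ← lintegral_mul_const _ hf]
    refine lintegral_mono fun y => ?_
    have mg : Measurable fun t : ℝ => g (fun _ => t) := by fun_prop
    have mh : Measurable fun t : ℝ => h (fun _ => y 0 + t) := by fun_prop
    have H := ENNReal.lintegral_mul_norm_pow_le (μ := volume) mg.aemeasurable mh.aemeasurable
      (p := 1 / 2) (q := 1 / 2) (by norm_num) (by norm_num) (by norm_num)
    rw [uni g hg, lintegral_add_left_eq_self (fun t : ℝ => h (fun _ => t)) (y 0), uni h hh] at H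
    simp only [F]
    rw [lintegral_const_mul _ (by fun_prop)]
    exact mul_le_mul_right H _

theorem result : ∃ (k d : ℕ) (ds : Fin k → ℕ) (B : ∀ i, Matrix (Fin (ds i)) (Fin d) ℝ)
    (c : Fin k → ℝ), 1 ≤ k ∧ 1 ≤ d ∧ (∀ i, 1 ≤ ds i) ∧ IsDatum B c ∧ FeasibleInt B c ∧
    Feasible B c ∧
    ∃ ε : ℝ, 0 < ε ∧ ∀ (B' : ∀ i, Matrix (Fin (ds i)) (Fin d) ℝ) (c' : Fin k → ℝ), IsDatum B' c' →
      (∀ i a b, |B' i a b - B i a b| < ε) → (∀ i, |c' i - c i| < ε) → ¬ Extremizable B' c' := by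
  refine ⟨3, 3, ds, B0, c0, by norm_num, by norm_num, by decide, ⟨?_, ?_⟩, ⟨1, by simp, ?_⟩, ⟨1, ?_⟩,
    1 / 100, by norm_num, ?_⟩
  · intro i
    fin_cases i
    · intro (y : Fin 2 → ℝ)
      refine ⟨![y 0, y 1, 0], ?_⟩
      change (!![1, 0, 0; 0, 1, 0] : Matrix (Fin 2) (Fin 3) ℝ) *ᵥ _ = y
      funext j
      fin_cases j <;> simp [mulVec, dotProduct, Fin.sum_univ_three]
    · intro (y : Fin 1 → ℝ)
      refine ⟨![0, 0, y 0], ?_⟩
      change (!![0, 0, 1] : Matrix (Fin 1) (Fin 3) ℝ) *ᵥ _ = y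
      funext j
      fin_cases j
      simp [mulVec, dotProduct, Fin.sum_univ_three]
    · intro (y : Fin 1 → ℝ)
      refine ⟨![0, 0, y 0], ?_⟩
      change (!![1, 0, 1] : Matrix (Fin 1) (Fin 3) ℝ) *ᵥ _ = y
      funext j
      fin_cases j
      simp [mulVec, dotProduct, Fin.sum_univ_three]
  · intro i
    fin_cases i <;> simp [c0]
  · intro f hf
    have := bl (f 0) (f 1) (f 2) (hf 0) (hf 1) (hf 2)
    simp only [Fin.prod_univ_three, one_mul]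
    exact this
  · intro A hA
    obtain ⟨z, hz, p, w⟩ := base (A 0) (A 1) (A 2) (hA 0) (hA 1) (hA 2)
    have g : den B0 c0 A = z := (den_eq B0 c0 A).trans hz
    refine ⟨by rw [g]; exact p.ne', Real.sqrt_le_iff.2 ⟨zero_le_one, ?_⟩⟩
    rw [one_pow, g, div_le_one p, Fin.prod_univ_three]
    exact w
  · rintro B c ⟨-, hc⟩ hB - ⟨A, hA, hmax⟩
    have t : 0 < tr (B 0 (1 : Fin 2)) (B 1 (0 : Fin 1)) (B 2 (0 : Fin 1)) := by
      apply near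
      · simpa [B0] using hB 0 (1 : Fin 2) 0
      · simpa [B0] using hB 0 (1 : Fin 2) 1
      · simpa [B0] using hB 0 (1 : Fin 2) 2
      · simpa [B0] using hB 1 (0 : Fin 1) 0
      · simpa [B0] using hB 1 (0 : Fin 1) 1
      · simpa [B0] using hB 1 (0 : Fin 1) 2
      · simpa [B0] using hB 2 (0 : Fin 1) 0
      · simpa [B0] using hB 2 (0 : Fin 1) 1
      · simpa [B0] using hB 2 (0 : Fin 1) 2
    obtain ⟨A', p', d', q', q⟩ := better (A 0) (hA 0)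
      ![tr (B 0 (0 : Fin 2)) (B 1 (0 : Fin 1)) (B 2 (0 : Fin 1)),
        tr (B 0 (1 : Fin 2)) (B 1 (0 : Fin 1)) (B 2 (0 : Fin 1))]
      (fun h => t.ne' (congrFun h 1))
    let N : ∀ i, Matrix (Fin (ds i)) (Fin (ds i)) ℝ := fun i =>
      match i with
      | 0 => A'
      | 1 => A 1
      | 2 => A 2
    have hN : ∀ i, (N i).PosDef := by
      intro i
      fin_cases i
      exacts [p', hA 1, hA 2]
    have f1 := (den_eq B c A).trans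
      (dform (B 0) (B 1) (B 2) (A 0) (A 1) (A 2) (c 0) (c 1) (c 2) (sym (hA 0)))
    have f2 := (den_eq B c N).trans
      (dform (B 0) (B 1) (B 2) A' (A 1) (A 2) (c 0) (c 1) (c 2) (sym p'))
    rw [d', q'] at f2
    have d0 : 0 < Matrix.det (n := Fin 2) (A 0) := (hA 0).det_pos
    have d1 : 0 < Matrix.det (n := Fin 1) (A 1) := (hA 1).det_pos
    have d2 : 0 < Matrix.det (n := Fin 1) (A 2) := (hA 2).det_pos
    have k0 := hc 0
    have k1 := hc 1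
    have k2 := hc 2
    have p2 : 0 < den B c N := by rw [f2]; positivity
    have lt : den B c N < den B c A := by
      rw [f1, f2]
      have := mul_pos (mul_pos (mul_pos (mul_pos k1 d1) (mul_pos k2 d2)) k0) q
      linarith
    have nm : ∏ i, (N i).det ^ c i = ∏ i, (A i).det ^ c i := by
      rw [Fin.prod_univ_three, Fin.prod_univ_three]
      exact congrArg (fun z : ℝ => z ^ c 0 * (A 1).det ^ c 1 * (A 2).det ^ c 2) d'
    have np : 0 < ∏ i, (A i).det ^ c i :=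
      prod_pos fun i _ => Real.rpow_pos_of_pos (hA i).det_pos _
    have m := (hmax N hN).2
    rw [quot, quot, nm] at m
    exact absurd m (not_le.2 (Real.sqrt_lt_sqrt (div_pos np (p2.trans lt)).le
      (div_lt_div_of_pos_left np p2 lt)))

end Pool.Agent.Results.MP_b8a264_an.Counter
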